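import Mathlib
import Pool.Agent.Q29.EP.RowsCT
import Pool.Agent.Y1.CT.Thms

/-!
# The noncommutative Tate conjecture and products with abelian varieties with one half of all slope
types of every CM field of degree `2 r ^ k`

Let `K i` (`i` in a finite set) be CM fields of degree `2 g i` which are pairwise independent: for
`i ≠ k` and all complex embeddings `φ` of `K i` and `ψ` of `K k` some automorphism of `ℂ` is the
identity on `φ (K i)` and the complex conjugation on `ψ (K k)` (this is no condition if there is
only one field).

We fix an isomorphism `ν` of the algebraic closure of `ℚ_p` with `ℂ`; it defines a `p`-adic
valuation of `ℂ`, with the value one at `p`. Let `M i` be a function with integral values on the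
complex embeddings of `K i`, invariant under complex conjugation (the weights). A CM type `Φ i` of
`K i` (a choice of one element out of each complex conjugate pair of embeddings), `M i` and a real
number `κ ≠ 0` prescribe the slopes `(a + κ M) / 2` (at the embeddings in `Φ i`) and `(a - κ M) / 2`
(outside of `Φ i`) of a Weil number for `p ^ a` in `K i`. If `p` splits completely in `K i` then, by
Honda and Tate, all rational slopes between `0` and `a` that are symmetric in this way occur for
abelian varieties over finite fields. The case `M = 1`, `κ = a` is the ordinary case.

**The property of the slope types.** For a family of types `Φ i` the property `Q` is the following.
Let `π i` be Weil numbers for `q = p ^ a` that generate the fields `K i` and have the slope types `Φ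
i`, `M i` (`HasType`), and let `f i` be monic polynomials whose complex roots are conjugates of `π
i` (`IsPolyOf`), for instance the characteristic polynomials of Frobenius of the abelian varieties
in the isogeny classes of the `π i` over the field with `q` elements. Let `A` be an abelian variety
over the field with `Q = q ^ s` elements which is isogenous to a product of powers of abelian
varieties coming from the field with `q` elements, with characteristic polynomials `f i`, and let
`Z` be **any** smooth projective variety over the field with `Q` elements such that

* the eigenvalues `ρ` of Frobenius on the cohomology of `Z` and their conjugates are independent of
  the fields `K i` (`Independent`): for each complex embedding `ψ` of `K i` there is an automorphism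
  `τ` of `ℂ` which fixes a power of `ρ` and is the complex conjugation on `ψ (K i)`. This is so if
  the eigenvalues have powers in a number field which is linearly disjoint from the normal closures
  of the `K i`, or powers in a totally real field (take for `τ` the complex conjugation).

Let `𝒜` be a smooth proper dg category whose noncommutative motive with rational coefficients is a
direct summand of the one of `Z`, for instance the category of perfect complexes on `Z`, or a
component of a semi-orthogonal decomposition of it. It is given by an idempotent `e` in the ring
`K_0(Z × Z)_ℚ`, which is identified with `CH(Z × Z)_ℚ` (all degrees together) by the Chern character
multiplied by the square root of the Todd class. The noncommutative motive of the dg category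
`perf(A) ⊗ 𝒜` is `(A × Z, 1 × e)`.

Then (`NCTateTimes`) there are finitely many products `D j` of divisors on `A` such that the Kunneth
formula holds for the elements of the cohomology of `(A × Z, 1 × e)` and of `(Z, e)` that are
invariant under Frobenius: the invariants of `perf(A) ⊗ 𝒜` are the direct sum of the products of the
`D j` with those of `𝒜`, and the same for the algebraic classes. In particular **the noncommutative
Tate conjecture for `perf(A) ⊗ 𝒜` is equivalent to the one for `𝒜`** (`NCTateConjecture`: the
invariants are spanned by the images of `K_0`; this is equivalent to the vanishing of the groups
`G_n` of the problem over all finite extensions, by Thomason and Tabuada). No motive is assumed to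
be finite-dimensional.

The framework (`TheoryData`, `IsChow`, `IsWeil`) is the one of the starting files: the Chow groups
`C` with their pull-backs, push-forwards and products, and a Weil cohomology theory `H` with
coefficients in an algebraically closed field, on a class `𝒱` of smooth proper varieties over `k`.

**The theorem.** Let `E` be **any CM field of degree `2 g = 2 r ^ k`**, `r` a prime number, of
degree at least `16` if `r = 2`. Nothing is assumed about the Galois group of the normal closure of
`E`, and nothing about the subfields of `E`.

* (`HalfOfAll`) For all weights `M` (odd if `r = 2`; if `r` is odd then `r` may divide some, but not
  all of them) the property `Q` is true for **at least one half of all `2 ^ g` types** of `E`.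
* (`MostWithWeightsOne`) For the weights `M = 1` (for instance in the ordinary case) it is true for
  at least `(1 - 1 / r) 2 ^ g` of the types.
* (`OneOfTwo`) There is a set `B` of embeddings of `E`, stable under complex conjugation, such that
  for **every** type `Φ` it is true for `Φ` or for the symmetric difference of `Φ` and `B`.
* (`SixteenPercent`) There is a number `g₀` such that for every CM field that is **abelian over
  `ℚ`**, of any degree `2 g ≥ 2 g₀`, and all odd weights it is true for at least 16 percent of all
  `2 ^ g` types; again nothing is assumed on the subfields.
* (`AlmostAll`, `WeightEstimate`) Moreover, in all degrees: if all values of `M` divide `n` then the
  number of the types of `E` for which it is false is at most `2 ^ g * C * n ^ 2 * rate E g r'`,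
  with an absolute constant `C`; here `r'` is any prime factor of `g` (or `r' = 1`), and `rate E g
  r'` is `(1 + log (2 g)) ^ 16` times the smaller of the numbers `W (E) / √g` and `√g / r'`, where
  `W (E) ≤ N ^ 2 * D ^ (1 / 4)`; `N` is the number of the CM subfields of `E` (with `E`) and `D` is
  the largest degree of a CM subfield of `E` that is normal over `ℚ` with a nonabelian Galois group
  (`D = 1` if there are none). So the property holds for almost all types of all CM fields with a
  bounded number of CM subfields (`O (n ^ 2 * g ^ (-1 / 4) * (log g) ^ 16)` exceptions, relative to
  `2 ^ g`), and of all CM fields whose degree is divisible by a prime number `r' ≥ g ^ (1 / 2 + δ)`.
  The counting of the degenerate types used in this part is the theorem of `AllCMFields`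
  (MP_e12fcd_ag, starting files).

All this is proved more generally for finitely many pairwise independent fields `K i`; the
proportions are then multiplied.

**How sharp it is.** For `r = 2` one half is the best possible proportion (of the types without
relations, see below): if `E` is multiquadratic and `M = 1` then a proportion `1 / 2 - O (g ^ (-1 /
2))` of the types is degenerate (`Pool.Agent.Q29.DP.multiquadratic`; the comments of several
starting files say by mistake that almost all are). The degrees `4` and `8` are exceptions: no CM
type of a biquadratic field, and no CM type of a Galois extension of `ℚ` with the dihedral group of
order eight, is nondegenerate. What was known: bounds for the ranks (Ribet, Dodson, Mai, Yanai); for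
odd `r` and `M = 1` the argument modulo `r` (library of the starting files,
`Pool.Agent.H977R3.CM.ncard_exceptional_le`, for abelian varieties of CM type); all types of the
fields of 2-power degree whose discriminant is not a square (starting files; such a field has no
proper CM subfield); almost all types of the fields with few CM subfields (starting files). Nothing
was known for the fields of 2-power degree with many CM subfields.

**The relations with the eigenvalues of `Z`** (starting files). Suppose that the product of `ρ` and
of some eigenvalues `φ (π i)` of `A`, no two of them complex conjugate, is a power of `q`, up to a
root of unity. For an automorphism `σ` of `ℂ` the `p`-adic valuations of the images under `σ` give a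
linear relation between the signed weights `± M i (σ φ)` whose right side is a function of the
valuation of `σ ρ`. It does not change if `σ` is multiplied by an automorphism `τ` which fixes a
power of `ρ`. The difference of the two relations is homogeneous; if there are no homogeneous
relations then it is trivial, so that the exponents are invariant under `τ`; but `τ` exchanges `ψ`
and its conjugate, so the exponents are zero. Hence only the eigenvalues `Q ^ j` of `A`, which
belong to products of divisor classes, contribute.

**The proof** that there are no homogeneous relations. Such a relation between the signed weights `e
= ± M` of one of the types is: `∑ n φ * e (σ φ) = 0` for all automorphisms `σ` of `ℂ`, with `n φ̄ =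
- n φ`, `n ≠ 0`. Let `P` be a Sylow `r`-subgroup of the Galois group of the normal closure and `R`
the lattice of these relations for all `σ` in `P`. If `R ≠ 0` then it contains an element `n`, not
in `r R`, which is fixed modulo `r R` by `P`. If `r` is odd then `P` has two orbits on the set `Y`
of the embeddings, which are complex conjugate, and `n` is constant modulo `r` on an orbit `O`; so
the sum of `e` over `O` is divisible by `r`, and it is not after a change of the type at one place.
For `M = 1` this happens for less than `2 ^ g / r` of the types, by the reflection principle for
walks on the cycle of length `2 r`.

Let `r = 2`. Then `P` is transitive on `Y`. Let `S` be the lattice of the antisymmetric functions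
orthogonal to `R`. Modulo two they give groups `R'` and `S'` of functions on the set of places,
which are orthogonal to each other. Let `φ` and `ψ` be the second binary digits of `e` and of an
element `n` of `R` with odd values. Then `φ (σ y) + φ y` is in `S'` and `ψ (σ y) + ψ y` is in `R'`,
for all `σ` in `P`. If `R'` contains only constants then `ψ` is semi-invariant (it changes by a
constant under all `σ`), and as the number of places is divisible by four one finds that the sum of
`φ + ψ` is zero; so the change of `e` at one place removes all relations. If `R'` is not constant
then it contains a nonconstant semi-invariant function `h`, `h (σ y) + h y = b σ`, orthogonal to all
functions `φ (σ y) + φ y`. If there is also an antisymmetric semi-invariant function then again the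
change at one place suffices. If the change at one place does not suffice then one finds a second
function `h'`, `h' (σ y) + h' y = b' σ`, such that the scalar products of `φ (σ y) + φ y` with `h`,
`h'` and `1` are `0`, `b' σ` and `0`. The functions `h`, `h'` divide the places into four blocks of
equal size (divisible by two). The main step is to show that then `e` and its change `e'` on the
block where `h = 0`, `h' = 1` do not both have relations; the configuration persists for every other
`e`, up to exchanging `h` and `h'`. It uses a key identity: if `u` in `R'` and `v` in `S'` are fixed
by `σ` then the sum of `u v (φ (σ y) + φ y)` is zero. It implies that `h + h'` is neither in `R'`
nor in the analogue of `S'` for `e'`. A duality argument for the 2-group that preserves `h + h'`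
shows that the functions `∑ c σ * ψ (σ y)`, with `∑ c σ = 0` and `c` supported on this group, have
arbitrary values on the set where `h + h' = 0`. Hence `R'` is a graph over the functions on this
set; this gives `h` in `R'`, and `h'` not in `S'`. In the same way, for `e'` and an element `s` with
`b s = 0`, `b' s = 1` there is such a `c` for which `∑ c σ * φ' (σ y)` is `φ' (s y) + φ' y` on all
of `Y`. The same combination for `e` differs from `φ (s y) + φ y` by `h'` or `h' + 1`, so that `h'`
is in `S'`, a contradiction.

For abelian fields: by Fourier analysis a type has relations if and only if the sum of `e` over the
Galois group `G`, multiplied by some odd character `χ`, is zero. If there is an odd quadratic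
character `χ₀` and `8` divides the order of `G` then the sums for all odd characters of 2-power
order are `2` modulo `2 P`, for a prime ideal `P` over two, as soon as the sum for `χ₀` is `2`
modulo `4`; this is so for one half of all types. For a character of order six the sum is zero for a
proportion of at most `3 √2 / (2 π g)` of all types with this parity, by the theorem of Erdős on the
problem of Littlewood and Offord and an involution on pairs of subsets, and there are at most `g /
2` pairs of conjugate characters of order six: together less than `0.3377`. For a character of order
`n` with `φ(n) ≥ 4` the proportion is at most `ρ ^ φ(n)`, `ρ` the largest probability of a sum of `2
g / n` signs, and the sum over all these characters tends to zero. If there is no odd quadratic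
character then there are no odd characters of order six, and for those of order four the proportions
are at most `4 / (π g)`. The lemmas on abelian groups were proved by helper129, helper154,
helper177, helper178, helper208 and helper261 of this team.
-/

set_option autoImplicit false

namespace Pool.Agent.Results.MP_de89cc_ag.HalfOfAllTimes

open NumberField Module Pool.Agent.H204R3.CM Pool.Agent.H977R3.CM Pool.Agent.Y1.KN
  Pool.Agent.Y1.CT Pool.Agent.Q29.EP

open Pool.Agent.Q29.DP (of_independent)

/-- The property of the slope types `Φ i` with the weights `M i`. -/
def Q : TypeProperty := fun _ _ ν _ _ K _ _ _ M Φ => ForAllTypes ν K M (NCTateTimes K) Φ

/-- **The noncommutative Tate conjecture for `perf(A) ⊗ 𝒜` is equivalent to the one for `𝒜`, for the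
abelian varieties `A` with one half of all slope types of every CM field of degree `2 r ^ k`, and
all independent `𝒜`.** -/
theorem result : HalfOfAll Q ∧ MostWithWeightsOne Q ∧ OneOfTwo Q ∧ SixteenPercent Q ∧
    AlmostAll Q ∧ WeightEstimate := by
  have h : WithoutRelations Q := of_independent (P := fun _ K _ => NCTateTimes K)
    fun _ _ _ _ _ _ hQ hR => ncTateTimes hQ hR
  exact ⟨halfOfAll h, mostWithWeightsOne h, oneOfTwo h, sixteenPercent h,
    almostAll h, weight_estimate_holds⟩

end Pool.Agent.Results.MP_de89cc_ag.HalfOfAllTimes
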