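import Mathlib
import Pool.Agent.Q219.NC.Main
import Pool.Agent.Q219.NW.Count

/-!
# The noncommutative Tate conjecture for `perf(A) ⊗ 𝒜`, with `A` outside of a thin subset of a Newton stratum

Fix a prime `p`, a nonempty finite set `κ`, dimensions `g i ≥ 1` and, for each `i`, a symmetric
Newton polygon with slopes `s i j` and `1 - s i j` (`j < g i`, increasing in `j`, between `0` and
`1 / 2`, with integral break points: `IsPolygon (s i)`) whose smallest slope is at most `σ < 1 / 2`;
so it is any Newton polygon that is not the supersingular one. `NewtonStratum g s p a` is the set
of families of isogeny classes of abelian varieties `A_i` of dimension `g i` over the field with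
`p ^ a` elements having these Newton polygons: by the theorem of Honda and Tate it consists of
families of characteristic polynomials of Frobenius. Fix also a number field `E` in the complex
numbers and a number `r` which is smaller than all the dimensions `g i`. Let `devSum (s i)` be the
sum of the numbers `1 - 2 s i j`, `j < g i` (it is `g i` for ordinary abelian varieties, and positive).

We prove that the number of elements of `NewtonStratum g s p a` tends to infinity with `a`, and that
for all members, except for at most

  `C * a * p ^ (- a (1 - 2 σ) / 6) * |NewtonStratum g s p a|`

(`C` depends on `p`, `g`, `s`, `σ`, `E`, `r` only), the following is true (`NCTateTimes`).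

Let `A` be an abelian variety over the field with `Q = p ^ (a s')` elements, for some `s' > 0`,
which is isogenous to a product of powers of the `A_i`. Let `Z` be **any** smooth projective variety
over the field with `Q` elements such that each eigenvalue `ρ` of the Frobenius endomorphism on
the cohomology of `Z` has one of the following properties:

* small rank: the conjugates of `ρ` lie, up to powers, in a group generated by nonzero elements of
  `E` and `r` numbers (which may depend on `ρ`);
* small width: `ρ` has a weight `w`, and the sum of the `|2 λ - w|`, `λ` the slopes of the conjugates
  of `ρ`, is smaller than `2 devSum (s i)` for all `i`.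

For instance all Frobenius eigenvalues of a curve of genus `h` have small width if `h < devSum (s i)`
for all `i`, and those of a K3 surface have small width if `2 < devSum (s i)` for all `i` (the
sum of the `|2 λ - 2|` over all slopes of a K3 surface of finite height is `4`).

Let `𝒜` be a smooth proper dg category whose noncommutative motive with rational coefficients is a
direct summand of the one of `Z`, for instance the category of perfect complexes on `Z`, or a
component of a semi-orthogonal decomposition of it. It is given by an idempotent `e` in the ring
`K_0(Z × Z)_ℚ`, which is identified with `CH(Z × Z)_ℚ` (all degrees together) by the Chern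
character multiplied by the square root of the Todd class. The noncommutative motive of the dg
category `perf(A) ⊗ 𝒜` is `(A × Z, 1 × e)`. The noncommutative Tate conjecture of the problem for
`𝒜` (vanishing of the `G_n`) says, for the `l`-adic cohomology, that the Frobenius invariants in the
sum of the `H^(2i)(i)` of `(Z, e)`, over all finite extensions, are spanned by the classes of
elements of `K_0` (`NCTateConjecture`; Thomason). There are finitely many products `D j` of divisors
on `A` such that

* the Frobenius invariants in the cohomology of `perf(A) ⊗ 𝒜` are the sums of the products of the
  classes of the `D j` with Frobenius invariants in the cohomology of `𝒜`, in a unique way;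
* **the noncommutative Tate conjecture for `perf(A) ⊗ 𝒜` is equivalent to the one for `𝒜`** (over
  each finite field: `s'` is arbitrary).

Nothing is assumed on the cycles on `Z` and on the semisimplicity of Frobenius. For instance the
conjecture is true for `perf(A) ⊗ 𝒜` if `𝒜` is a component of `perf(Z)` where `Z` is a K3 surface or
a product of an elliptic curve and a curve of small genus, in the range above.

The framework (`TheoryData`, `IsChow`, `IsWeil`, `TateKunneth`) is the one of the starting file
`AlmostAllAbelianFactors` in this folder, where `A` runs through all, or all ordinary, isogeny classes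
over a field with `q` elements, `q → ∞`, and the condition on `Z` is the one of small rank. Newton
strata are thin subsets of the set of all isogeny classes, and the condition of small width contains
varieties `Z` of arbitrary rank. The proof combines the sieve for Newton strata
(`Pool.Agent.Q219.NS`), the `p`-adic valuations of relations (`Pool.Agent.Q219.NW`) and the projector
given by the `D j` (`Pool.Agent.W484.CK`).
-/

set_option autoImplicit false

namespace Pool.Agent.Results.MP_de89cc_ag.NewtonStrataFactors

open Polynomial Pool.Agent.Q219.NS Pool.Agent.Q219.NW Pool.Agent.Q219.NC

/-- The theorem for the family of isogeny classes over the field with `q` elements with the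
Frobenius polynomials `F i`, of dimension `g i` and slopes `s i j`: the reduction of the noncommutative
Tate conjecture for `perf(A) ⊗ 𝒜` to the one for `𝒜`, for all summands `𝒜` of varieties `Z` whose
Frobenius eigenvalues have rank at most `r` over `E` or width smaller than `2 * P`, where `P` is at
most the `devSum (s i)`. -/
def Holds {κ : Type} (g : κ → ℕ) (s : ∀ i, Fin (g i) → ℚ) (E : IntermediateField ℚ ℂ) (r q : ℕ)
    (F : κ → ℤ[X]) : Prop :=
  ∀ P : ℝ, (∀ i, P ≤ devSum (s i)) → NCTateTimes E r P q F

/-- **The noncommutative Tate conjecture for `perf(A) ⊗ 𝒜` is equivalent to the one for `𝒜`, for the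
abelian varieties `A` outside of a thin subset of a Newton stratum.** -/
theorem result {κ : Type} [Fintype κ] [Nonempty κ] (p : ℕ) [Fact p.Prime]
    -- dimensions and Newton polygons
    (g : κ → ℕ) (s : ∀ i, Fin (g i) → ℚ) (hs : ∀ i, IsPolygon (s i))
    -- the smallest slopes
    (σ : ℚ) (hσ : ∀ i (h : 0 < g i), s i ⟨0, h⟩ ≤ σ) (hσ2 : σ < 1 / 2)
    -- the number field and the rank
    (E : IntermediateField ℚ ℂ) [FiniteDimensional ℚ E] (r : ℕ) (hr : ∀ i, r < g i) :
    (∀ N : ℕ, ∃ a₀ : ℕ, ∀ a, a₀ ≤ a →
      (NewtonStratum g s p a).Finite ∧ N ≤ (NewtonStratum g s p a).ncard) ∧
    ∃ C : ℝ, 0 < C ∧ ∀ a : ℕ, 0 < a →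
      ({F ∈ NewtonStratum g s p a | ¬ Holds g s E r (p ^ a) F}.ncard : ℝ) ≤
        C * (a * (p : ℝ) ^ (-((a : ℝ) * (1 - 2 * σ) / 6))) *
          ((NewtonStratum g s p a).ncard : ℝ) := by
  classical
  have hg : ∀ i, 1 ≤ g i := fun i => (Nat.zero_le r).trans_lt (hr i)
  obtain ⟨h1, C, hC, h2⟩ := count_slopes g s p E hg hs σ hσ hσ2
  refine ⟨h1, C, hC, fun a ha => h2 a ha _ fun f hm hd hf habs hdev P hP => ?_⟩
  have hp : p.Prime := Fact.out
  exact ncTateTimes E r P (Nat.one_lt_pow ha.ne' hp.one_lt) fun s' hs' =>
    noRelAt_good E p a ha rfl r hm (fun i => by rw [hd i]; exact hr i) hf habs _ hdev P hP s' hs'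

end Pool.Agent.Results.MP_de89cc_ag.NewtonStrataFactors
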